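import Pool.Agent.helper46.ESM.Spec

/-!
# MP_43ab4e_al, row EGS
-/

set_option autoImplicit false

namespace Pool.Agent.helper46.ESM

open Subgroup Pool.Agent.helper80.EN

universe u

theorem EGS_aux {G : Type u} [Group G] (x y : G) (n : ℕ) :
    icom (y * x) x (n + 1) = x⁻¹ * icom y x (n + 1) * x := by
  induction n with
  | zero =>
    show com (y * x) x = x⁻¹ * com y x * x
    unfold com
    group
  | succ n ih =>
    show com (icom (y * x) x (n + 1)) x = x⁻¹ * com (icom y x (n + 1)) x * x
    rw [ih]
    unfold com
    group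

theorem EGS : EGS_stmt.{u} := by
  intro G _ x y n h
  have h1 : icom (y * x) x (n + 1) = 1 := by
    show com (icom (y * x) x n) x = 1
    rw [h]
    unfold com
    group
  rw [EGS_aux] at h1
  have h2 : icom y x (n + 1) = x * (x⁻¹ * icom y x (n + 1) * x) * x⁻¹ := by group
  rw [h2, h1]
  group

end Pool.Agent.helper46.ESM
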